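import Mathlib

/-!
# A multiplicity with large margins for all the numbers of points at once
-/

set_option autoImplicit false

namespace Pool.Agent.K3h10.SH

/-- the multiplicity -/
def m0 : ℕ := 74602991693235067300949

/-- the two ends of the window of `n` points -/
noncomputable def wa (n : ℕ) : ℝ := min (√(n : ℝ) - 3) (2 / 3 + 9 / (4 * √(n : ℝ)))

/-- the two ends of the window of `n` points -/
noncomputable def wb (n : ℕ) : ℝ := min (√(n : ℝ) - 3) (2 / 3 + 1 / (4 * √(n : ℝ)))

/-- There is no odd number in the window around `√n (2 m0 + 1)`, with the margin `1 / 115`. -/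
def Cert (n : ℕ) : Prop := ∃ e : ℤ,
  2 * (e : ℝ) - 1 + 1 / 115 < √(n : ℝ) * (2 * m0 + 1) - wa n ∧
    √(n : ℝ) * (2 * m0 + 1) + wb n < 2 * (e : ℝ) + 1 - 1 / 115

theorem cert_of {n : ℕ} {e : ℤ} {lo hi s t : ℝ} (hs : 0 < s) (ht : 0 < t) (hs2 : s ^ 2 ≤ n)
    (ht2 : (n : ℝ) ≤ t ^ 2) (h0 : 0 < 2 * (e : ℝ) + lo ∧ 0 < 2 * (e : ℝ) + hi)
    (h1 : (2 * (e : ℝ) + lo) ^ 2 ≤ n * 149205983386470134601899 ^ 2 ∧
      (n : ℝ) * 149205983386470134601899 ^ 2 ≤ (2 * (e : ℝ) + hi) ^ 2)
    (hA : t - 3 - 1 + 1 / 115 < lo ∨ 2 / 3 + 9 / (4 * s) - 1 + 1 / 115 < lo)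
    (hB : hi + (t - 3) < 1 - 1 / 115 ∨ hi + (2 / 3 + 1 / (4 * s)) < 1 - 1 / 115) : Cert n := by
  have e1 : (2 * (m0 : ℝ) + 1) = 149205983386470134601899 := by
    unfold m0
    norm_num
  have hst : s ≤ √(n : ℝ) := Real.le_sqrt_of_sq_le hs2
  have htt : √(n : ℝ) ≤ t := by
    rw [Real.sqrt_le_left ht.le]
    exact ht2
  have hpos : 0 < √(n : ℝ) := lt_of_lt_of_le hs hst
  have hx : √(n : ℝ) * (2 * m0 + 1) = √((n : ℝ) * 149205983386470134601899 ^ 2) := by
    rw [e1, Real.sqrt_mul (Nat.cast_nonneg n), Real.sqrt_sq (by norm_num)]
  have hlo : 2 * (e : ℝ) + lo ≤ √(n : ℝ) * (2 * m0 + 1) := by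
    rw [hx]
    exact Real.le_sqrt_of_sq_le h1.1
  have hhi : √(n : ℝ) * (2 * m0 + 1) ≤ 2 * (e : ℝ) + hi := by
    rw [hx, Real.sqrt_le_left h0.2.le]
    exact h1.2
  have hA' : wa n - 1 + 1 / 115 < lo := by
    rcases hA with h | h
    · have h2 : wa n ≤ √(n : ℝ) - 3 := min_le_left _ _
      linarith
    · have h2 : wa n ≤ 2 / 3 + 9 / (4 * √(n : ℝ)) := min_le_right _ _
      have h3 : 9 / (4 * √(n : ℝ)) ≤ 9 / (4 * s) :=
        div_le_div_of_nonneg_left (by norm_num) (by linarith) (by linarith)
      linarith
  have hB' : hi + wb n < 1 - 1 / 115 := by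
    rcases hB with h | h
    · have h2 : wb n ≤ √(n : ℝ) - 3 := min_le_left _ _
      linarith
    · have h2 : wb n ≤ 2 / 3 + 1 / (4 * √(n : ℝ)) := min_le_right _ _
      have h3 : 1 / (4 * √(n : ℝ)) ≤ 1 / (4 * s) :=
        div_le_div_of_nonneg_left (by norm_num) (by linarith) (by linarith)
      linarith
  exact ⟨e, by linarith, by linarith⟩

theorem cert10 : Cert 10 :=
  cert_of (n := 10) (e := 235915374013244428360815) (lo := (5050/100000)) (hi := (5060/100000)) (s := (316227/100000)) (t := (316228/100000))
    (by norm_num) (by norm_num) (by norm_num) (by norm_num) (by norm_num) (by norm_num)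
    (Or.inl (by norm_num)) (Or.inl (by norm_num))

theorem cert11 : Cert 11 :=
  cert_of (n := 11) (e := 247430131684461391498946) (lo := (-34910/100000)) (hi := (-34900/100000)) (s := (331662/100000)) (t := (331663/100000))
    (by norm_num) (by norm_num) (by norm_num) (by norm_num) (by norm_num) (by norm_num)
    (Or.inl (by norm_num)) (Or.inl (by norm_num))

theorem cert12 : Cert 12 :=
  cert_of (n := 12) (e := 258432344018644085525614) (lo := (7940/100000)) (hi := (7950/100000)) (s := (346410/100000)) (t := (346411/100000))
    (by norm_num) (by norm_num) (by norm_num) (by norm_num) (by norm_num) (by norm_num)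
    (Or.inl (by norm_num)) (Or.inl (by norm_num))

theorem cert14 : Cert 14 :=
  cert_of (n := 14) (e := 279138834944427978560560) (lo := (5280/100000)) (hi := (5290/100000)) (s := (374165/100000)) (t := (374166/100000))
    (by norm_num) (by norm_num) (by norm_num) (by norm_num) (by norm_num) (by norm_num)
    (Or.inl (by norm_num)) (Or.inr (by norm_num))

theorem cert15 : Cert 15 :=
  cert_of (n := 15) (e := 288936144405149676681832) (lo := (2370/100000)) (hi := (2380/100000)) (s := (387298/100000)) (t := (387299/100000))
    (by norm_num) (by norm_num) (by norm_num) (by norm_num) (by norm_num) (by norm_num)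
    (Or.inl (by norm_num)) (Or.inr (by norm_num))

theorem cert17 : Cert 17 :=
  cert_of (n := 17) (e := 307596014738285105303364) (lo := (19040/100000)) (hi := (19050/100000)) (s := (412310/100000)) (t := (412311/100000))
    (by norm_num) (by norm_num) (by norm_num) (by norm_num) (by norm_num) (by norm_num)
    (Or.inl (by norm_num)) (Or.inr (by norm_num))

theorem cert18 : Cert 18 :=
  cert_of (n := 18) (e := 316513687938541147972575) (lo := (20590/100000)) (hi := (20600/100000)) (s := (424264/100000)) (t := (424265/100000))
    (by norm_num) (by norm_num) (by norm_num) (by norm_num) (by norm_num) (by norm_num)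
    (Or.inr (by norm_num)) (Or.inr (by norm_num))

theorem cert19 : Cert 19 :=
  cert_of (n := 19) (e := 325186901676615979634930) (lo := (20320/100000)) (hi := (20330/100000)) (s := (435889/100000)) (t := (435890/100000))
    (by norm_num) (by norm_num) (by norm_num) (by norm_num) (by norm_num) (by norm_num)
    (Or.inr (by norm_num)) (Or.inr (by norm_num))

theorem cert20 : Cert 20 :=
  cert_of (n := 20) (e := 333634721501851496189342) (lo := (23190/100000)) (hi := (23200/100000)) (s := (447213/100000)) (t := (447214/100000))
    (by norm_num) (by norm_num) (by norm_num) (by norm_num) (by norm_num) (by norm_num)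
    (Or.inr (by norm_num)) (Or.inr (by norm_num))

theorem cert22 : Cert 22 :=
  cert_of (n := 22) (e := 349919047967926161579023) (lo := (17080/100000)) (hi := (17090/100000)) (s := (469041/100000)) (t := (469042/100000))
    (by norm_num) (by norm_num) (by norm_num) (by norm_num) (by norm_num) (by norm_num)
    (Or.inr (by norm_num)) (Or.inr (by norm_num))

theorem cert23 : Cert 23 :=
  cert_of (n := 23) (e := 357783379295853694975026) (lo := (17980/100000)) (hi := (17990/100000)) (s := (479583/100000)) (t := (479584/100000))
    (by norm_num) (by norm_num) (by norm_num) (by norm_num) (by norm_num) (by norm_num)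
    (Or.inr (by norm_num)) (Or.inr (by norm_num))

theorem cert24 : Cert 24 :=
  cert_of (n := 24) (e := 365478525867035874604982) (lo := (19500/100000)) (hi := (19510/100000)) (s := (489897/100000)) (t := (489898/100000))
    (by norm_num) (by norm_num) (by norm_num) (by norm_num) (by norm_num) (by norm_num)
    (Or.inr (by norm_num)) (Or.inr (by norm_num))

theorem cert26 : Cert 26 :=
  cert_of (n := 26) (e := 380402110416206040013881) (lo := (21680/100000)) (hi := (21690/100000)) (s := (509901/100000)) (t := (509902/100000))
    (by norm_num) (by norm_num) (by norm_num) (by norm_num) (by norm_num) (by norm_num)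
    (Or.inr (by norm_num)) (Or.inr (by norm_num))

theorem cert27 : Cert 27 :=
  cert_of (n := 27) (e := 387648516027966128288421) (lo := (11920/100000)) (hi := (11930/100000)) (s := (519615/100000)) (t := (519616/100000))
    (by norm_num) (by norm_num) (by norm_num) (by norm_num) (by norm_num) (by norm_num)
    (Or.inr (by norm_num)) (Or.inr (by norm_num))

theorem cert28 : Cert 28 :=
  cert_of (n := 28) (e := 394761926163434880858627) (lo := (23630/100000)) (hi := (23640/100000)) (s := (529150/100000)) (t := (529151/100000))
    (by norm_num) (by norm_num) (by norm_num) (by norm_num) (by norm_num) (by norm_num)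
    (Or.inr (by norm_num)) (Or.inr (by norm_num))

theorem cert29 : Cert 29 :=
  cert_of (n := 29) (e := 401749405373357227533453) (lo := (21950/100000)) (hi := (21960/100000)) (s := (538516/100000)) (t := (538517/100000))
    (by norm_num) (by norm_num) (by norm_num) (by norm_num) (by norm_num) (by norm_num)
    (Or.inr (by norm_num)) (Or.inr (by norm_num))

theorem cert30 : Cert 30 :=
  cert_of (n := 30) (e := 408617414077553740300773) (lo := (17840/100000)) (hi := (17850/100000)) (s := (547722/100000)) (t := (547723/100000))
    (by norm_num) (by norm_num) (by norm_num) (by norm_num) (by norm_num) (by norm_num)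
    (Or.inr (by norm_num)) (Or.inr (by norm_num))

theorem cert31 : Cert 31 :=
  cert_of (n := 31) (e := 415371878510098362767980) (lo := (15220/100000)) (hi := (15230/100000)) (s := (556776/100000)) (t := (556777/100000))
    (by norm_num) (by norm_num) (by norm_num) (by norm_num) (by norm_num) (by norm_num)
    (Or.inr (by norm_num)) (Or.inr (by norm_num))

theorem cert32 : Cert 32 :=
  cert_of (n := 32) (e := 422018250584721530630100) (lo := (27450/100000)) (hi := (27460/100000)) (s := (565685/100000)) (t := (565686/100000))
    (by norm_num) (by norm_num) (by norm_num) (by norm_num) (by norm_num) (by norm_num)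
    (Or.inr (by norm_num)) (Or.inr (by norm_num))

theorem cert33 : Cert 33 :=
  cert_of (n := 33) (e := 428561559400945006155888) (lo := (20190/100000)) (hi := (20200/100000)) (s := (574456/100000)) (t := (574457/100000))
    (by norm_num) (by norm_num) (by norm_num) (by norm_num) (by norm_num) (by norm_num)
    (Or.inr (by norm_num)) (Or.inr (by norm_num))

theorem cert34 : Cert 34 :=
  cert_of (n := 34) (e := 435006455774797226672601) (lo := (14610/100000)) (hi := (14620/100000)) (s := (583095/100000)) (t := (583096/100000))
    (by norm_num) (by norm_num) (by norm_num) (by norm_num) (by norm_num) (by norm_num)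
    (Or.inr (by norm_num)) (Or.inr (by norm_num))

theorem cert35 : Cert 35 :=
  cert_of (n := 35) (e := 441357250915096574321955) (lo := (11410/100000)) (hi := (11420/100000)) (s := (591607/100000)) (t := (591608/100000))
    (by norm_num) (by norm_num) (by norm_num) (by norm_num) (by norm_num) (by norm_num)
    (Or.inr (by norm_num)) (Or.inr (by norm_num))

end Pool.Agent.K3h10.SH
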