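import Mathlib

/-!
# Simultaneous recurrence of rotations, with positive lower density
-/

set_option autoImplicit false

namespace Pool.Agent.K3h10.SH

open Filter

/-- the times `k` at which all the rotations by `α i` are close to the identity -/
def Close {ι : Type} (α : ι → ℝ) (N : ℕ) (k : ℕ) : Prop :=
  ∀ i, ∃ z : ℤ, |α i * k - z| < 1 / N

/-- the box of a point -/
noncomputable def box {ι : Type} (α : ι → ℝ) (N : ℕ) (k : ℕ) : ι → ℕ :=
  fun i => ⌊(N : ℝ) * Int.fract (α i * k)⌋₊

theorem close_of_box {ι : Type} {α : ι → ℝ} {N : ℕ} (hN : 0 < N) {k l : ℕ} (hkl : l ≤ k)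
    (h : box α N k = box α N l) : Close α N (k - l) := by
  intro i
  have hNR : (0 : ℝ) < N := by exact_mod_cast hN
  have h1 : ⌊(N : ℝ) * Int.fract (α i * k)⌋₊ = ⌊(N : ℝ) * Int.fract (α i * l)⌋₊ := congrFun h i
  have hk0 := mul_nonneg hNR.le (Int.fract_nonneg (α i * k))
  have hl0 := mul_nonneg hNR.le (Int.fract_nonneg (α i * l))
  have a1 := Nat.floor_le hk0
  have a2 := Nat.lt_floor_add_one ((N : ℝ) * Int.fract (α i * k))
  have b1 := Nat.floor_le hl0
  have b2 := Nat.lt_floor_add_one ((N : ℝ) * Int.fract (α i * l))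
  rw [h1] at a1 a2
  refine ⟨⌊α i * k⌋ - ⌊α i * l⌋, ?_⟩
  have e : α i * ((k - l : ℕ) : ℝ) - ((⌊α i * k⌋ - ⌊α i * l⌋ : ℤ) : ℝ) =
      Int.fract (α i * k) - Int.fract (α i * l) := by
    rw [Nat.cast_sub hkl]
    unfold Int.fract
    push_cast
    ring
  rw [e, lt_div_iff₀ hNR]
  have e2 : |Int.fract (α i * k) - Int.fract (α i * l)| * N =
      |(N : ℝ) * Int.fract (α i * k) - (N : ℝ) * Int.fract (α i * l)| := by
    rw [← mul_sub, abs_mul, abs_of_pos hNR, mul_comm]
  rw [e2, abs_lt]
  constructor <;> linarith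

open Classical in
/-- **The times of simultaneous recurrence have positive lower density.** -/
theorem recur {ι : Type} [Fintype ι] (α : ι → ℝ) {N : ℕ} (hN : 0 < N) (M : ℕ) :
    M ≤ N ^ Fintype.card ι * ((Finset.range M).filter (Close α N)).card := by
  have hmaps : ∀ k ∈ Finset.range M, box α N k ∈ Fintype.piFinset fun _ : ι => Finset.range N := by
    intro k _
    rw [Fintype.mem_piFinset]
    intro i
    rw [Finset.mem_range]
    have hNR : (0 : ℝ) < N := by exact_mod_cast hN
    apply (Nat.floor_lt (mul_nonneg hNR.le (Int.fract_nonneg _))).2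
    calc (N : ℝ) * Int.fract (α i * k) < N * 1 :=
          mul_lt_mul_of_pos_left (Int.fract_lt_one _) hNR
      _ = N := mul_one _
  have h1 := Finset.card_eq_sum_card_fiberwise hmaps
  rw [Finset.card_range] at h1
  have h2 : ∀ c ∈ Fintype.piFinset fun _ : ι => Finset.range N,
      ((Finset.range M).filter fun k => box α N k = c).card ≤
        ((Finset.range M).filter (Close α N)).card := by
    intro c _
    rcases Finset.eq_empty_or_nonempty ((Finset.range M).filter fun k => box α N k = c) with h | h
    · rw [h, Finset.card_empty]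
      exact Nat.zero_le _
    · obtain ⟨l, hl, hmin⟩ := Finset.exists_min_image _ (fun k => k) h
      rw [Finset.mem_filter, Finset.mem_range] at hl
      apply Finset.card_le_card_of_injOn (fun k => k - l)
      · intro k hk
        have hk' := Finset.mem_coe.1 hk
        have hlk : l ≤ k := hmin k hk'
        rw [Finset.mem_filter, Finset.mem_range] at hk'
        rw [Finset.mem_coe, Finset.mem_filter, Finset.mem_range]
        exact ⟨lt_of_le_of_lt (Nat.sub_le k l) hk'.1,
          close_of_box hN hlk (hk'.2.trans hl.2.symm)⟩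
      · intro k hk k' hk' he
        have h3 : l ≤ k := hmin k (Finset.mem_coe.1 hk)
        have h4 : l ≤ k' := hmin k' (Finset.mem_coe.1 hk')
        have he' : k - l = k' - l := he
        omega
  calc M = ∑ c ∈ Fintype.piFinset fun _ : ι => Finset.range N,
        ((Finset.range M).filter fun k => box α N k = c).card := h1
    _ ≤ ∑ _c ∈ Fintype.piFinset fun _ : ι => Finset.range N,
        ((Finset.range M).filter (Close α N)).card := Finset.sum_le_sum h2
    _ = N ^ Fintype.card ι * ((Finset.range M).filter (Close α N)).card := by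
        rw [Finset.sum_const, smul_eq_mul, Fintype.card_piFinset, Finset.prod_const,
          Finset.card_range, Finset.card_univ]

open Classical in
/-- If `m₀` and all its translates by the times of recurrence are good, then the good numbers have
positive lower density. -/
theorem dens {ι : Type} [Fintype ι] (α : ι → ℝ) {N : ℕ} (hN : 0 < N) {P : ℕ → Prop} {m₀ : ℕ}
    (h : ∀ k : ℕ, Close α N k → P (m₀ + k)) (h1 : 1 ≤ m₀) :
    ∀ᶠ M : ℕ in atTop, (M : ℝ) / (2 * (N : ℝ) ^ Fintype.card ι) ≤
      (((Finset.Icc 1 M).filter P).card : ℝ) := by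
  filter_upwards [eventually_ge_atTop (2 * m₀)] with M hM
  have h2 := recur α hN (M - m₀)
  have h3 : ((Finset.range (M - m₀)).filter (Close α N)).card ≤ ((Finset.Icc 1 M).filter P).card := by
    apply Finset.card_le_card_of_injOn (fun k => m₀ + k)
    · intro k hk
      have hk' := Finset.mem_coe.1 hk
      rw [Finset.mem_filter, Finset.mem_range] at hk'
      rw [Finset.mem_coe, Finset.mem_filter, Finset.mem_Icc]
      have h7 : 1 ≤ m₀ + k ∧ m₀ + k ≤ M := ⟨by omega, by omega⟩
      exact ⟨h7, h k hk'.2⟩
    · intro k _ k' _ he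
      have he' : m₀ + k = m₀ + k' := he
      omega
  have hNR : (0 : ℝ) < N := by exact_mod_cast hN
  rw [div_le_iff₀ (by positivity)]
  have h4 : ((M - m₀ : ℕ) : ℝ) ≤ (N : ℝ) ^ Fintype.card ι * (((Finset.Icc 1 M).filter P).card : ℝ) := by
    have h5 := h2.trans (Nat.mul_le_mul_left _ h3)
    exact_mod_cast h5
  have h6 : (M : ℝ) ≤ 2 * ((M - m₀ : ℕ) : ℝ) := by
    have : M ≤ 2 * (M - m₀) := by omega
    exact_mod_cast this
  nlinarith

end Pool.Agent.K3h10.SH
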