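import Pool.Agent.TH641.NW.End2
import Pool.Agent.TH760.EN.Asm
import Pool.Agent.TH864.SX.Final13
import Pool.Agent.TH469.SX.TwentyOne
import Pool.Agent.H932R3.NearFinal
import Pool.Agent.K3h10.SH.Rec
import Pool.Agent.K3h10.SH.Cert

/-!
# All degrees at once for a multiplicity without a critical degree
-/

set_option autoImplicit false

namespace Pool.Agent.K3h10.SH

open MvPolynomial Filter

/-- all degrees, over the rational numbers -/
def AllQ (n m : ℕ) : Prop :=
  ∃ F : MvPolynomial (Fin n × Fin 2) ℚ, F ≠ 0 ∧ ∀ P : Fin n → Fin 2 → ℂ,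
    MvPolynomial.aeval (fun ij : Fin n × Fin 2 => P ij.1 ij.2) F ≠ 0 →
    ∀ d : ℕ, H932R3.ExpDim ℂ (fun _ => m) P d

theorem all_closed {n m : ℕ} (hn : 10 ≤ n) (hm : 1 ≤ m)
    (hC : 37 ≤ n ∨ n = 13 ∨ n = 21 ∨ IsSquare n) : AllQ n m := by
  rcases hC with hr | rfl | rfl | ⟨s, rfl⟩
  · exact TH760.EN.expDim37 (L := ℂ) hr hm
  · obtain ⟨F, hF, hF'⟩ := TH864.SX.uniform13 m
    exact ⟨F, hF, fun P hP d => hF' P hP d⟩
  · obtain ⟨F, hF, hF'⟩ := TH469.SX.twentyone m
    exact ⟨F, hF, fun P hP d => hF' P hP d⟩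
  · have hs2 : 2 ≤ s := by
      by_contra hcon
      have : s ≤ 1 := by omega
      have := Nat.mul_le_mul this this
      omega
    exact H932R3.near_points (L := ℂ) (w := fun _ => m) hn hm (fun _ => Or.inl rfl)
      (H932R3.near_cond (by omega) (fun _ => Or.inl rfl)
        (Or.inr ⟨s, 0, hs2, by ring, Or.inl rfl⟩))

theorem all_window {n m : ℕ} (hn : 10 ≤ n) (hm : 1 ≤ m) (e : ℤ)
    (h1 : 2 * (e : ℝ) - 1 < √(n : ℝ) * (2 * m + 1) - wa n)
    (h2 : √(n : ℝ) * (2 * m + 1) + wb n < 2 * (e : ℝ) + 1) : AllQ n m := by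
  obtain ⟨F, hF, hF'⟩ := TH641.NW.expDim_uni_win2 (L := ℂ) hn hm
  refine ⟨F, hF, fun P hP d => hF' P hP d ?_⟩
  unfold wa at h1
  unfold wb at h2
  have h3 : (d : ℤ) + 1 < e ∨ e ≤ (d : ℤ) + 1 := lt_or_ge _ _
  rcases h3 with h | h
  · left
    have h4 : (d : ℤ) + 2 ≤ e := h
    have h5 : (d : ℝ) + 2 ≤ (e : ℝ) := by exact_mod_cast h4
    linarith
  · right
    have h5 : (e : ℝ) ≤ (d : ℝ) + 1 := by exact_mod_cast h
    linarith

/-- the numbers of points for which one degree is open in general -/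
def lst : Finset ℕ := {10, 11, 12, 14, 15, 17, 18, 19, 20, 22, 23, 24, 26, 27, 28, 29, 30, 31, 32,
  33, 34, 35}

theorem card_lst : lst.card = 22 := by decide

theorem cert_lst : ∀ n ∈ lst, Cert n := by
  intro n hn
  unfold lst at hn
  simp only [Finset.mem_insert, Finset.mem_singleton] at hn
  rcases hn with rfl | rfl | rfl | rfl | rfl | rfl | rfl | rfl | rfl | rfl | rfl | rfl | rfl |
    rfl | rfl | rfl | rfl | rfl | rfl | rfl | rfl | rfl
  · exact cert10
  · exact cert11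
  · exact cert12
  · exact cert14
  · exact cert15
  · exact cert17
  · exact cert18
  · exact cert19
  · exact cert20
  · exact cert22
  · exact cert23
  · exact cert24
  · exact cert26
  · exact cert27
  · exact cert28
  · exact cert29
  · exact cert30
  · exact cert31
  · exact cert32
  · exact cert33
  · exact cert34
  · exact cert35

theorem mem_lst {n : ℕ} (h1 : 9 < n) (h2 : ¬ (37 ≤ n ∨ n = 13 ∨ n = 21 ∨ IsSquare n)) :
    n ∈ lst := by
  push Not at h2
  obtain ⟨h3, h4, h5, h6⟩ := h2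
  have h16 : n ≠ 16 := by
    rintro rfl
    exact h6 ⟨4, by norm_num⟩
  have h25 : n ≠ 25 := by
    rintro rfl
    exact h6 ⟨5, by norm_num⟩
  have h36 : n ≠ 36 := by
    rintro rfl
    exact h6 ⟨6, by norm_num⟩
  unfold lst
  simp only [Finset.mem_insert, Finset.mem_singleton]
  omega

/-- the rotations -/
noncomputable def rot : {x // x ∈ lst} → ℝ := fun i => √((i : ℕ) : ℝ)

theorem good_of_close {k : ℕ} (hk : Close rot 230 k) (n : ℕ) (hn : 9 < n) : AllQ n (m0 + k) := by
  have hm : 1 ≤ m0 + k := by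
    unfold m0
    omega
  by_cases hC : 37 ≤ n ∨ n = 13 ∨ n = 21 ∨ IsSquare n
  · exact all_closed hn hm hC
  · have hL := mem_lst hn hC
    obtain ⟨e, he1, he2⟩ := cert_lst n hL
    obtain ⟨z, hz⟩ := hk ⟨n, hL⟩
    have hz' : |√(n : ℝ) * k - z| < 1 / 230 := by
      have h1 : rot ⟨n, hL⟩ = √(n : ℝ) := rfl
      rw [h1] at hz
      exact_mod_cast hz
    rw [abs_lt] at hz'
    obtain ⟨hz1, hz2⟩ := hz'
    have e1 : √(n : ℝ) * (2 * ((m0 + k : ℕ) : ℝ) + 1) =
        √(n : ℝ) * (2 * m0 + 1) + 2 * (√(n : ℝ) * k) := by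
      push_cast
      ring
    refine all_window hn hm (e + z) ?_ ?_
    · rw [e1]
      push_cast
      linarith
    · rw [e1]
      push_cast
      linarith

open Classical in
/-- the density of the good multiplicities -/
theorem dens_good : ∀ᶠ M : ℕ in atTop, (M : ℝ) / 10 ^ 53 ≤
    (((Finset.Icc 1 M).filter fun m => ∀ n : ℕ, 9 < n → AllQ n m).card : ℝ) := by
  have h1 := dens rot (N := 230) (by norm_num) (P := fun m => ∀ n : ℕ, 9 < n → AllQ n m)
    (m₀ := m0) (fun k hk n hn => good_of_close hk n hn) (by unfold m0; norm_num)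
  filter_upwards [h1] with M hM
  refine le_trans ?_ hM
  rw [Fintype.card_coe, card_lst]
  apply div_le_div_of_nonneg_left (Nat.cast_nonneg M) (by norm_num)
  norm_num

end Pool.Agent.K3h10.SH
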